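import Pool.Agent.Helper316.FCW

/-!
# FC-groups which are residually (finite derived subgroup)

Let `G` be an FC-group which is residually in the class of groups with finite derived subgroup.

* Every subgroup of `G / Z(G)` of cardinality at most `ℵ₁` is embeddable in a restricted direct
  product of finite groups; in particular `G / Z(G)` is, if `|G / Z(G)| ≤ ℵ₁`.
* If `Z(G) ∩ G'` is countable, then `G / Z(G)` is embeddable in a restricted direct product of
  finite groups, whatever its cardinality.  The same holds for every FC-group `G` such that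
  `Z(G) ∩ G'` is embeddable in a restricted direct product of finite groups.
-/

set_option autoImplicit false

namespace Pool.Agent.Results.MP_d93556_al.Main

open Pool.Agent.Helper316

/-- `Γ` is isomorphic to a subgroup of a restricted direct product of finite groups. -/
def EmbedsInDirectProductOfFinite (Γ : Type) [Group Γ] : Prop :=
  ∃ (ι : Type) (F : ι → Type) (_ : ∀ i, Group (F i)) (_ : ∀ i, Finite (F i))
    (f : Γ →* ((i : ι) → F i)), Function.Injective f ∧ ∀ x, {i : ι | f x i ≠ 1}.Finite

theorem result (G : Type) [Group G]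
    (hFC : ∀ g : G, {h : G | IsConj g h}.Finite) :
    ((∀ g : G, g ≠ 1 → ∃ (N : Subgroup G) (_ : N.Normal), g ∉ N ∧
        Finite ↥(commutator (G ⧸ N))) →
      (∀ K : Subgroup (G ⧸ Subgroup.center G), Cardinal.mk K ≤ Cardinal.aleph 1 →
        EmbedsInDirectProductOfFinite K) ∧
      (Cardinal.mk (G ⧸ Subgroup.center G) ≤ Cardinal.aleph 1 →
        EmbedsInDirectProductOfFinite (G ⧸ Subgroup.center G)) ∧
      (Countable ↥(Subgroup.center G ⊓ commutator G) →
        EmbedsInDirectProductOfFinite (G ⧸ Subgroup.center G))) ∧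
    (EmbedsInDirectProductOfFinite ↥(Subgroup.center G ⊓ commutator G) →
      EmbedsInDirectProductOfFinite (G ⧸ Subgroup.center G)) := by
  have h4 : EmbedsInDirectProductOfFinite ↥(Subgroup.center G ⊓ commutator G) →
      EmbedsInDirectProductOfFinite (G ⧸ Subgroup.center G) := by
    rintro ⟨ι, F, _, _, f, hf, hs⟩
    exact FCW.of_zz hFC ι F f hf hs
  refine ⟨fun hX => ?_, h4⟩
  have hR : FCX.ResX G := by
    intro g hg
    obtain ⟨N, hN, hgN, hfin⟩ := hX g hg
    exact ⟨N, hN, hgN, Set.toFinite _⟩
  refine ⟨fun K hK => (FCX.sub_SDF hFC hR K hK).toProd, fun h => ?_,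
    fun hc => h4 (FCW.zz_SDF hFC hR hc).toProd⟩
  have h1 : FCX.SDF (⊤ : Subgroup (G ⧸ Subgroup.center G)) := by
    refine FCX.sub_SDF hFC hR ⊤ ?_
    exact (Cardinal.mk_subtype_le _).trans h
  let e : (G ⧸ Subgroup.center G) ≃* (⊤ : Subgroup (G ⧸ Subgroup.center G)) :=
    Subgroup.topEquiv.symm
  exact (h1.comap e.toMonoidHom e.injective).toProd

end Pool.Agent.Results.MP_d93556_al.Main
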